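import Pool.Agent.H922Z.NU.Defs

set_option autoImplicit false

open MeasureTheory Complex Metric Set
open scoped ENNReal

namespace Pool.Agent.H177Z.NU

open BK Pool.Agent.H922Z.NU

lemma NN_cont {n : ℕ} (l : Fin n → ℂ) (z : En n) : Continuous (fun ζ => NN l z ζ) := by
  unfold NN
  fun_prop

lemma NN_nonneg {n : ℕ} (l : Fin n → ℂ) (z ζ : En n) : 0 ≤ NN l z ζ := by
  unfold NN
  positivity

lemma norm_le_of_NN {n : ℕ} {l : Fin n → ℂ} {z ζ : En n} {t : ℝ} (ht : 0 < t)
    (h : NN l z ζ ≤ t ^ 2) : ‖ζ - z‖ ≤ t := by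
  unfold NN at h
  have h1 : ‖ζ - z‖ ^ 2 ≤ t ^ 2 := le_trans (le_add_of_nonneg_right (norm_nonneg _)) h
  exact (pow_le_pow_iff_left₀ (norm_nonneg _) ht.le two_ne_zero).1 h1

lemma vol_le (m : ℕ) (l : Fin (m + 1) → ℂ) (j : Fin (m + 1)) (a : ℝ) (ha : 0 < a)
    (hal : a ≤ ‖l j‖) (z : En (m + 1)) (t : ℝ) (ht : 0 < t) :
    volume {ζ : En (m + 1) | NN l z ζ ≤ t ^ 2} ≤
      ENNReal.ofReal (Real.pi ^ (m + 1) * t ^ (2 * m + 4) / a ^ 2) := by
  have hlj : l j ≠ 0 := by
    intro h
    rw [h, norm_zero] at hal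
    linarith
  set e := MeasurableEquiv.piFinSuccAbove (fun _ : Fin (m + 1) => ℂ) j with he
  have hmp := volume_preserving_piFinSuccAbove (fun _ : Fin (m + 1) => ℂ) j
  set z' : Fin m → ℂ := fun k => z (j.succAbove k) with hz'
  set c : (Fin m → ℂ) → ℂ := fun y => z j - (∑ k, l (j.succAbove k) * (y k - z' k)) / l j
    with hc
  have hcc : Continuous c := by
    rw [hc]
    fun_prop
  set B : Set (ℂ × (Fin m → ℂ)) :=
    {p | dist p.2 z' ≤ t ∧ dist p.1 (c p.2) ≤ t ^ 2 / a} with hB
  have hBm : MeasurableSet B := by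
    apply IsClosed.measurableSet
    apply IsClosed.inter
    · exact isClosed_le (continuous_snd.dist continuous_const) continuous_const
    · exact isClosed_le (continuous_fst.dist (hcc.comp continuous_snd)) continuous_const
  have hsub : {ζ : En (m + 1) | NN l z ζ ≤ t ^ 2} ⊆ e ⁻¹' B := by
    intro ζ hζ
    have h1 : ‖ζ - z‖ ≤ t := norm_le_of_NN ht hζ
    have h2 : ‖∑ k, l k * (ζ k - z k)‖ ≤ t ^ 2 := by
      have : NN l z ζ ≤ t ^ 2 := hζ
      unfold NN at this
      exact le_trans (le_add_of_nonneg_left (by positivity)) this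
    have he1 : (e ζ).1 = ζ j := rfl
    have he2 : (e ζ).2 = fun k => ζ (j.succAbove k) := rfl
    refine ⟨?_, ?_⟩
    · rw [he2, dist_pi_le_iff ht.le]
      intro k
      rw [dist_eq_norm]
      exact le_trans (norm_le_pi_norm (ζ - z) (j.succAbove k)) h1
    · rw [he1, he2, dist_eq_norm]
      rw [Fin.sum_univ_succAbove _ j] at h2
      have h3 : ζ j - c (fun k => ζ (j.succAbove k)) =
          (l j * (ζ j - z j) + ∑ k, l (j.succAbove k) *
            (ζ (j.succAbove k) - z (j.succAbove k))) / l j := by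
        simp only [hc, hz']
        field_simp
        ring
      rw [h3, norm_div]
      exact div_le_div₀ (by positivity) h2 ha hal
  have h1 : volume (e ⁻¹' B) = ((volume : Measure ℂ).prod (volume : Measure (Fin m → ℂ))) B :=
    hmp.measure_preimage hBm.nullMeasurableSet
  have h2 : ((volume : Measure ℂ).prod (volume : Measure (Fin m → ℂ))) B ≤
      ∫⁻ y, (closedBall z' t).indicator
        (fun _ => ENNReal.ofReal (t ^ 2 / a) ^ 2 * NNReal.pi) y := by
    rw [Measure.prod_apply_symm hBm]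
    apply lintegral_mono
    intro y
    by_cases hy : y ∈ closedBall z' t
    · rw [indicator_of_mem hy, ← Complex.volume_closedBall (c y)]
      apply measure_mono
      intro x hx
      exact hx.2
    · have : (fun x => (x, y)) ⁻¹' B = ∅ := by
        ext x
        simp only [mem_preimage, mem_empty_iff_false, iff_false]
        intro hx
        exact hy hx.1
      simp only [this, measure_empty, zero_le]
  refine le_trans (measure_mono hsub) (h1.le.trans (h2.trans ?_))
  rw [lintegral_indicator_const measurableSet_closedBall, volume_pi_closedBall _ ht.le]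
  simp only [Complex.volume_closedBall, Finset.prod_const, Finset.card_univ, Fintype.card_fin]
  have hpi : (NNReal.pi : ℝ≥0∞) = ENNReal.ofReal Real.pi := by
    rw [← NNReal.coe_real_pi, ENNReal.ofReal_coe_nnreal]
  rw [hpi, ← ENNReal.ofReal_pow (by positivity), ← ENNReal.ofReal_pow ht.le,
    ← ENNReal.ofReal_mul (by positivity), ← ENNReal.ofReal_mul (by positivity),
    ← ENNReal.ofReal_pow (by positivity), ← ENNReal.ofReal_mul (by positivity)]
  apply le_of_eq
  congr 1
  field_simp
  ring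

lemma lint_le (m : ℕ) (l : Fin (m + 1) → ℂ) (j : Fin (m + 1)) (a : ℝ) (ha : 0 < a)
    (hal : a ≤ ‖l j‖) (z : En (m + 1)) (s : ℝ) (hs : 0 < s) :
    ∫⁻ ζ in {ζ | NN l z ζ < s ^ 2}, ENNReal.ofReal (‖ζ - z‖ / (NN l z ζ) ^ (m + 1 + 1)) ≤
      ENNReal.ofReal (2 * 4 ^ (m + 2) * Real.pi ^ (m + 1) / a ^ 2 * s) := by
  set t : ℕ → ℝ := fun k => s * (1 / 2) ^ k with ht
  have htp : ∀ k, 0 < t k := fun k => by simp only [ht]; positivity
  set S : ℕ → Set (En (m + 1)) := fun k => {ζ | NN l z ζ ≤ t k ^ 2} with hS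
  have hSm : ∀ k, MeasurableSet (S k) := fun k =>
    (isClosed_le (NN_cont l z) continuous_const).measurableSet
  set w : ℕ → ℝ := fun k => t k * (4 / t k ^ 2) ^ (m + 2) with hw
  have hpt : ∀ ζ ∈ {ζ | NN l z ζ < s ^ 2},
      ENNReal.ofReal (‖ζ - z‖ / (NN l z ζ) ^ (m + 1 + 1)) ≤
        ∑' k, (S k).indicator (fun _ => ENNReal.ofReal (w k)) ζ := by
    intro ζ hζ
    rcases (NN_nonneg l z ζ).eq_or_lt with h0 | h0
    · rw [← h0]
      simp
    · have hζ' : NN l z ζ < s ^ 2 := hζ
      obtain ⟨k, hk1, hk2⟩ := exists_nat_pow_near_of_lt_one (x := NN l z ζ / s ^ 2)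
        (y := (1 / 4 : ℝ)) (by positivity) ((div_le_one (by positivity)).2 hζ'.le)
        (by norm_num) (by norm_num)
      have htk : t k ^ 2 = s ^ 2 * (1 / 4) ^ k := by
        simp only [ht]
        rw [mul_pow, ← pow_mul, mul_comm k 2, pow_mul]
        norm_num
      have hk3 : NN l z ζ ≤ t k ^ 2 := by
        rw [htk, mul_comm]
        exact (div_le_iff₀ (by positivity)).1 hk2
      have hk4 : t k ^ 2 / 4 ≤ NN l z ζ := by
        rw [htk]
        have := (lt_div_iff₀ (by positivity)).1 hk1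
        rw [pow_succ] at this
        linarith
      refine le_trans ?_ (ENNReal.le_tsum k)
      rw [indicator_of_mem (show ζ ∈ S k from hk3)]
      apply ENNReal.ofReal_le_ofReal
      have h5 : w k = t k / (t k ^ 2 / 4) ^ (m + 1 + 1) := by
        simp only [hw]
        have := htp k
        rw [div_pow, div_pow]
        field_simp
      rw [h5]
      have := htp k
      exact div_le_div₀ this.le (norm_le_of_NN this hk3) (by positivity)
        (pow_le_pow_left₀ (by positivity) hk4 _)
  have hmeas : MeasurableSet {ζ : En (m + 1) | NN l z ζ < s ^ 2} :=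
    (isOpen_lt (NN_cont l z) continuous_const).measurableSet
  calc ∫⁻ ζ in {ζ | NN l z ζ < s ^ 2}, ENNReal.ofReal (‖ζ - z‖ / (NN l z ζ) ^ (m + 1 + 1))
      ≤ ∫⁻ ζ in {ζ | NN l z ζ < s ^ 2},
          ∑' k, (S k).indicator (fun _ => ENNReal.ofReal (w k)) ζ :=
        setLIntegral_mono' hmeas hpt
    _ ≤ ∫⁻ ζ, ∑' k, (S k).indicator (fun _ => ENNReal.ofReal (w k)) ζ :=
        setLIntegral_le_lintegral _ _
    _ = ∑' k, ENNReal.ofReal (w k) * volume (S k) := by
        rw [lintegral_tsum (fun k => (measurable_const.indicator (hSm k)).aemeasurable)]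
        congr 1
        funext k
        rw [lintegral_indicator_const (hSm k)]
    _ ≤ ∑' k, ENNReal.ofReal
          (4 ^ (m + 2) * Real.pi ^ (m + 1) / a ^ 2 * s * (1 / 2) ^ k) := by
        apply ENNReal.tsum_le_tsum
        intro k
        have := htp k
        refine le_trans (mul_le_mul_right (vol_le m l j a ha hal z (t k) this) _) ?_
        rw [← ENNReal.ofReal_mul (by simp only [hw]; positivity)]
        apply le_of_eq
        congr 1
        have h6 : s * (1 / 2) ^ k = t k := rfl
        rw [mul_assoc _ s, h6]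
        simp only [hw]
        rw [div_pow, ← pow_mul]
        field_simp
        ring
    _ = ENNReal.ofReal (2 * 4 ^ (m + 2) * Real.pi ^ (m + 1) / a ^ 2 * s) := by
        rw [← ENNReal.ofReal_tsum_of_nonneg (fun k => by positivity)
          (summable_geometric_two.mul_left _), tsum_mul_left, tsum_geometric_two]
        congr 1
        ring

theorem t5 : T5 := by
  intro n
  rcases n with _ | m
  · exact ⟨0, le_rfl, fun l j => j.elim0⟩
  refine ⟨2 * 4 ^ (m + 2) * Real.pi ^ (m + 1), by positivity, ?_⟩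
  intro l j a ha hal z s hs
  have h := lint_le m l j a ha hal z s hs
  have hnn : ∀ ζ : En (m + 1), 0 ≤ ‖ζ - z‖ / (NN l z ζ) ^ (m + 1 + 1) := fun ζ =>
    div_nonneg (norm_nonneg _) (pow_nonneg (NN_nonneg l z ζ) _)
  have hm : Measurable (fun ζ : En (m + 1) => ‖ζ - z‖ / (NN l z ζ) ^ (m + 1 + 1)) := by
    apply Measurable.div
    · fun_prop
    · exact ((NN_cont l z).pow _).measurable
  refine ⟨⟨hm.aestronglyMeasurable, ?_⟩, ?_⟩
  · rw [hasFiniteIntegral_iff_ofReal (Filter.Eventually.of_forall hnn)]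
    exact lt_of_le_of_lt h ENNReal.ofReal_lt_top
  · rw [integral_eq_lintegral_of_nonneg_ae (Filter.Eventually.of_forall hnn)
      hm.aestronglyMeasurable]
    exact ENNReal.toReal_le_of_le_ofReal (by positivity) h

end Pool.Agent.H177Z.NU
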